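import Pool.Agent.helper5.PR.SpecZ

/-!
# Project pr:, module Z-PULL: pull back of a solvable subgroup along a surjection with finite kernel
-/

set_option autoImplicit false

namespace Pool.Agent.PR

open Matrix Module

lemma Z_PULL_sep {Λ L : Type} [Group Λ] [Group L] (π : Λ →* L) (hk : Finite π.ker) (hR : RF Λ) :
    ∃ W : Subgroup Λ, W.FiniteIndex ∧ ∀ w ∈ W, π w = 1 → w = 1 := by
  classical
  choose H h1 h2 using hR
  let f : π.ker → Subgroup Λ := fun g => if h : (g : Λ) = 1 then ⊤ else H g h
  refine ⟨⨅ g, f g, Subgroup.finiteIndex_iInf fun g => ?_, fun w hw hw1 => ?_⟩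
  · by_cases h : (g : Λ) = 1
    · have : f g = ⊤ := dif_pos h
      rw [this]
      infer_instance
    · have : f g = H g h := dif_neg h
      rw [this]
      exact ⟨h1 g h⟩
  · by_contra hne
    have h3 := (Subgroup.mem_iInf.1 hw) ⟨w, hw1⟩
    have h4 : f ⟨w, hw1⟩ = H w hne := dif_neg hne
    rw [h4] at h3
    exact h2 w hne h3

lemma Z_PULL_equiv {k : ℕ} {P Q : Type} [Group P] [Group Q] (e : P ≃* Q) (h : NonEmbS k P) :
    NonEmbS k Q := by
  obtain ⟨h1, h2, h3, h4⟩ := h
  refine ⟨?_, ?_, ?_, ?_⟩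
  · exact Group.fg_of_surjective (f := e.toMonoidHom) e.surjective
  · exact Group.isSolvable_of_surjective (f := e.toMonoidHom) e.surjective
  · intro g hg k hk hgk
    apply h3 (e.symm g) _ k hk
    · rw [← map_pow, hgk, map_one]
    · intro h
      apply hg
      simpa using h
  · intro H hH E _ _ f hf
    have h5 : (H.comap e.toMonoidHom).FiniteIndex :=
      ⟨by rw [Subgroup.index_comap_of_surjective _ e.surjective]; exact hH.1⟩
    refine h4 _ h5 E (f.comp (e.toMonoidHom.subgroupComap H)) (hf.comp ?_)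
    intro x y hxy
    have h6 := congrArg Subtype.val hxy
    exact Subtype.ext (e.injective h6)

lemma Z_PULL_fi {k : ℕ} {P : Type} [Group P] (h : NonEmbS k P) (J : Subgroup P)
    (hJ : J.FiniteIndex) : NonEmbS k J := by
  obtain ⟨h1, h2, h3, h4⟩ := h
  refine ⟨?_, ?_, ?_, ?_⟩
  · exact Subgroup.fg_of_index_ne_zero J
  · exact Group.isSolvable_of_isSolvable_injective J.subtype_injective
  · intro g hg k hk hgk
    refine h3 g (fun h => hg (Subtype.ext h)) k hk ?_
    exact congrArg Subtype.val hgk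
  · intro H hH E _ _ f hf
    have h5 : (H.map J.subtype).FiniteIndex :=
      ⟨by rw [Subgroup.index_map_subtype]; exact mul_ne_zero hH.1 hJ.1⟩
    let e := H.equivMapOfInjective J.subtype J.subtype_injective
    exact h4 _ h5 E (f.comp e.symm.toMonoidHom) (hf.comp e.symm.injective)

theorem Z_PULL : Z_PULL_stmt := by
  intro Λ L _ _ π hπ hk hR k P hP
  obtain ⟨W, hW, hW1⟩ := Z_PULL_sep π hk hR
  have hWm : (W.map π).FiniteIndex :=
    ⟨fun h => hW.1 (Nat.eq_zero_of_zero_dvd (h ▸ Subgroup.index_map_dvd W hπ))⟩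
  have hj := Z_PULL_fi hP ((W.map π).subgroupOf P) inferInstance
  refine ⟨P.comap π ⊓ W, ?_⟩
  let g : ↥(P.comap π ⊓ W) →* ((W.map π).subgroupOf P) :=
    { toFun := fun x => ⟨⟨π x, x.2.1⟩, ⟨x, x.2.2, rfl⟩⟩
      map_one' := by
        apply Subtype.ext
        apply Subtype.ext
        simp
      map_mul' := by
        intro x y
        apply Subtype.ext
        apply Subtype.ext
        simp }
  have hg : Function.Bijective g := by
    constructor
    · rw [injective_iff_map_eq_one]
      intro x hx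
      have h6 : π x = 1 := congrArg (fun z : ((W.map π).subgroupOf P) => ((z : P) : L)) hx
      exact Subtype.ext (hW1 x x.2.2 h6)
    · rintro ⟨⟨y, hy⟩, ⟨w, hw, hwy⟩⟩
      refine ⟨⟨w, ?_, hw⟩, ?_⟩
      · show π w ∈ P
        rw [hwy]
        exact hy
      · apply Subtype.ext
        apply Subtype.ext
        exact hwy
  exact Z_PULL_equiv (MulEquiv.ofBijective g hg).symm hj

end Pool.Agent.PR
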