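import Pool.Agent.helper5.PR.SpecS

/-!
# Project pr, module S-SAQ: elementary matrices with unbounded denominators at one prime
-/

set_option autoImplicit false

namespace Pool.Agent.PR

open Matrix

section trans

variable {ι : Type} [Fintype ι] [DecidableEq ι]

theorem S_SAQ_det (e φ : ι → ℚ) : (1 + vecMulVec e φ).det = 1 + φ ⬝ᵥ e := by
  have h : vecMulVec e φ = replicateCol Unit e * replicateRow Unit φ := by
    ext i j
    simp [vecMulVec_apply, Matrix.mul_apply]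
  rw [h, det_one_add_replicateCol_mul_replicateRow]

/-- The transvection `1 + e ⊗ φ` (when `φ ⬝ e = 0`; the junk value is `1`). -/
noncomputable def S_SAQ_tv (e φ : ι → ℚ) : SpecialLinearGroup ι ℚ :=
  if h : φ ⬝ᵥ e = 0 then ⟨1 + vecMulVec e φ, by rw [S_SAQ_det, h, add_zero]⟩ else 1

theorem S_SAQ_coe {e φ : ι → ℚ} (h : φ ⬝ᵥ e = 0) :
    ((S_SAQ_tv e φ : SpecialLinearGroup ι ℚ) : Matrix ι ι ℚ) = 1 + vecMulVec e φ := by
  unfold S_SAQ_tv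
  rw [dif_pos h]

theorem S_SAQ_zero (e : ι → ℚ) : S_SAQ_tv e (0 : ι → ℚ) = 1 := by
  apply Subtype.ext
  rw [S_SAQ_coe (by simp)]
  simp

theorem S_SAQ_addr {e φ ψ : ι → ℚ} (h1 : φ ⬝ᵥ e = 0) (h2 : ψ ⬝ᵥ e = 0) :
    S_SAQ_tv e (φ + ψ) = S_SAQ_tv e φ * S_SAQ_tv e ψ := by
  apply Subtype.ext
  rw [Matrix.SpecialLinearGroup.coe_mul, S_SAQ_coe h1, S_SAQ_coe h2,
    S_SAQ_coe (by rw [add_dotProduct, h1, h2, add_zero])]
  rw [Matrix.add_mul, Matrix.mul_add, Matrix.mul_add, vecMulVec_mul_vecMulVec, h1]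
  simp [vecMulVec_add]
  abel

theorem S_SAQ_addl {e e' φ : ι → ℚ} (h1 : φ ⬝ᵥ e = 0) (h2 : φ ⬝ᵥ e' = 0) :
    S_SAQ_tv (e + e') φ = S_SAQ_tv e φ * S_SAQ_tv e' φ := by
  apply Subtype.ext
  rw [Matrix.SpecialLinearGroup.coe_mul, S_SAQ_coe h1, S_SAQ_coe h2,
    S_SAQ_coe (by rw [dotProduct_add, h1, h2, add_zero])]
  rw [Matrix.add_mul, Matrix.mul_add, Matrix.mul_add, vecMulVec_mul_vecMulVec, h2]
  simp [add_vecMulVec]
  abel

theorem S_SAQ_smul {e φ : ι → ℚ} (h1 : φ ⬝ᵥ e = 0) (k : ℚ) :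
    S_SAQ_tv (k • e) φ = S_SAQ_tv e (k • φ) := by
  apply Subtype.ext
  rw [S_SAQ_coe (by rw [dotProduct_smul, h1, smul_zero]),
    S_SAQ_coe (by rw [smul_dotProduct, h1, smul_zero])]
  ext i j
  simp [vecMulVec_apply]

theorem S_SAQ_dot (g : SpecialLinearGroup ι ℚ) (φ x : ι → ℚ) :
    (φ ᵥ* ((g⁻¹ : SpecialLinearGroup ι ℚ) : Matrix ι ι ℚ)) ⬝ᵥ ((g : Matrix ι ι ℚ) *ᵥ x) =
      φ ⬝ᵥ x := by
  rw [← dotProduct_mulVec, mulVec_mulVec, ← Matrix.SpecialLinearGroup.coe_mul, inv_mul_cancel]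
  simp

theorem S_SAQ_conj {e φ : ι → ℚ} (h1 : φ ⬝ᵥ e = 0) (g : SpecialLinearGroup ι ℚ) :
    g * S_SAQ_tv e φ * g⁻¹ = S_SAQ_tv ((g : Matrix ι ι ℚ) *ᵥ e)
      (φ ᵥ* ((g⁻¹ : SpecialLinearGroup ι ℚ) : Matrix ι ι ℚ)) := by
  apply Subtype.ext
  rw [S_SAQ_coe (by rw [S_SAQ_dot, h1]), Matrix.SpecialLinearGroup.coe_mul,
    Matrix.SpecialLinearGroup.coe_mul, S_SAQ_coe h1, Matrix.mul_add, Matrix.add_mul,
    Matrix.mul_one, ← Matrix.SpecialLinearGroup.coe_mul,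
    mul_inv_cancel, Matrix.SpecialLinearGroup.coe_one, mul_vecMulVec, vecMulVec_mul]

theorem S_SAQ_comm {x α y β : ι → ℚ} (h1 : α ⬝ᵥ x = 0) (h2 : β ⬝ᵥ y = 0) (h3 : β ⬝ᵥ x = 0) :
    S_SAQ_tv x α * S_SAQ_tv y β * (S_SAQ_tv x α)⁻¹ * (S_SAQ_tv y β)⁻¹ =
      S_SAQ_tv x ((α ⬝ᵥ y) • β) := by
  have key : S_SAQ_tv x α * S_SAQ_tv y β =
      S_SAQ_tv x ((α ⬝ᵥ y) • β) * (S_SAQ_tv y β * S_SAQ_tv x α) := by
    apply Subtype.ext
    simp only [Matrix.SpecialLinearGroup.coe_mul]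
    rw [S_SAQ_coe h1, S_SAQ_coe h2, S_SAQ_coe (by rw [smul_dotProduct, h3, smul_zero])]
    simp only [Matrix.add_mul, Matrix.mul_add, Matrix.one_mul, Matrix.mul_one,
      vecMulVec_mul_vecMulVec, h2, h3, zero_smul, smul_zero, vecMulVec_zero,
      add_zero, Matrix.smul_mul, vecMulVec_smul]
    abel
  rw [key]
  group

theorem S_SAQ_comm_mem {G : Subgroup (SpecialLinearGroup ι ℚ)} {x α y β : ι → ℚ}
    (h1 : α ⬝ᵥ x = 0) (h2 : β ⬝ᵥ y = 0) (h3 : β ⬝ᵥ x = 0) (hx : S_SAQ_tv x α ∈ G)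
    (hy : S_SAQ_tv y β ∈ G) : S_SAQ_tv x ((α ⬝ᵥ y) • β) ∈ G := by
  rw [← S_SAQ_comm h1 h2 h3]
  exact G.mul_mem (G.mul_mem (G.mul_mem hx hy) (G.inv_mem hx)) (G.inv_mem hy)

/-- elementary matrices -/
noncomputable def S_SAQ_E (i j : ι) (α : ℚ) : SpecialLinearGroup ι ℚ :=
  S_SAQ_tv (Pi.single i 1) (Pi.single j α)

theorem S_SAQ_sd (j : ι) (α : ℚ) (x : ι → ℚ) : (Pi.single j α : ι → ℚ) ⬝ᵥ x = α * x j := by
  simp [single_dotProduct]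

theorem S_SAQ_Eadd {i j : ι} (h : i ≠ j) (α β : ℚ) :
    S_SAQ_E i j (α + β) = S_SAQ_E i j α * S_SAQ_E i j β := by
  unfold S_SAQ_E
  rw [Pi.single_add]
  refine S_SAQ_addr ?_ ?_ <;> rw [S_SAQ_sd] <;> simp [h.symm]

theorem S_SAQ_E0 (i j : ι) : S_SAQ_E i j 0 = 1 := by
  unfold S_SAQ_E
  rw [Pi.single_zero, S_SAQ_zero]

variable (G : Subgroup (SpecialLinearGroup ι ℚ))

/-- the additive group of the `α` with `E i j α ∈ G` -/
noncomputable def S_SAQ_I (i j : ι) (h : i ≠ j) : AddSubgroup ℚ where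
  carrier := {α | S_SAQ_E i j α ∈ G}
  zero_mem' := by
    change S_SAQ_E i j 0 ∈ G
    rw [S_SAQ_E0]
    exact G.one_mem
  add_mem' := by
    intro a b ha hb
    change S_SAQ_E i j (a + b) ∈ G
    rw [S_SAQ_Eadd h]
    exact G.mul_mem ha hb
  neg_mem' := by
    intro a ha
    change S_SAQ_E i j (-a) ∈ G
    have h1 : S_SAQ_E i j (-a) = (S_SAQ_E i j a)⁻¹ := by
      rw [eq_inv_iff_mul_eq_one, ← S_SAQ_Eadd h, neg_add_cancel, S_SAQ_E0]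
    rw [h1]
    exact G.inv_mem ha

theorem S_SAQ_memI {i j : ι} (h : i ≠ j) (α : ℚ) :
    α ∈ S_SAQ_I G i j h ↔ S_SAQ_E i j α ∈ G := Iff.rfl

variable {G}

theorem S_SAQ_Ecomm {i j l : ι} (hij : i ≠ j) (hjl : j ≠ l) (hil : i ≠ l) {α β : ℚ}
    (h1 : S_SAQ_E i j α ∈ G) (h2 : S_SAQ_E j l β ∈ G) : S_SAQ_E i l (α * β) ∈ G := by
  have h3 := S_SAQ_comm_mem (G := G) (x := Pi.single i 1) (α := Pi.single j α)
    (y := Pi.single j 1) (β := Pi.single l β) (by rw [S_SAQ_sd]; simp [hij.symm])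
    (by rw [S_SAQ_sd]; simp [hjl.symm]) (by rw [S_SAQ_sd]; simp [hil.symm]) h1 h2
  rw [S_SAQ_sd, Pi.single_eq_same, mul_one] at h3
  have h4 : α • (Pi.single l β : ι → ℚ) = Pi.single l (α * β) := by
    rw [← Pi.single_smul]
    rfl
  rw [h4] at h3
  exact h3

end trans

/-! ## Denominators -/

section den

variable (q : ℕ) [hq : Fact q.Prime]

theorem S_SAQ_ratcast (x : ℚ) : ((x : ℚ) : ℚ_[q]) * ((x.den : ℤ) : ℚ_[q]) = ((x.num : ℤ) : ℚ_[q]) := by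
  have h : x * ((x.den : ℤ) : ℚ) = ((x.num : ℤ) : ℚ) := by
    push_cast
    exact Rat.mul_den_eq_num x
  have h2 := congrArg (fun y : ℚ => (y : ℚ_[q])) h
  push_cast at h2 ⊢
  exact h2

theorem S_SAQ_den1 (x : ℚ) (r : ℕ) (hr : 1 ≤ r) (h : q ^ r ∣ x.den) :
    (q : ℝ) ^ r ≤ ‖(x : ℚ_[q])‖ := by
  have h1 := congrArg norm (S_SAQ_ratcast q x)
  rw [norm_mul] at h1
  have hqd : q ∣ x.den := (dvd_pow_self q (by omega)).trans h
  have h2 : ¬ (q : ℤ) ∣ x.num := by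
    intro h3
    have h4 : q ∣ x.num.natAbs := Int.natCast_dvd.mp h3
    have h5 := Nat.dvd_gcd h4 hqd
    rw [x.reduced] at h5
    exact hq.out.one_lt.ne' (Nat.dvd_one.mp h5)
  have h3 : ‖((x.num : ℤ) : ℚ_[q])‖ = 1 := by
    have h4 := Padic.norm_int_le_one (p := q) x.num
    have h5 := (Padic.norm_intCast_lt_one_iff (p := q) (k := x.num)).not.mpr h2
    exact le_antisymm h4 (not_lt.mp h5)
  have h4 : ‖(((x.den : ℤ)) : ℚ_[q])‖ ≤ (q : ℝ) ^ (-(r : ℤ)) := by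
    rw [Padic.norm_int_le_pow_iff_dvd]
    exact_mod_cast h
  rw [h3] at h1
  have hq0 : (0 : ℝ) < q := by exact_mod_cast hq.out.pos
  have h5 : (0 : ℝ) < (q : ℝ) ^ r := by positivity
  rw [_root_.zpow_neg, zpow_natCast] at h4
  have h6 : 1 ≤ ‖(x : ℚ_[q])‖ * ((q : ℝ) ^ r)⁻¹ := by
    rw [← h1]
    exact mul_le_mul_of_nonneg_left h4 (norm_nonneg _)
  rwa [← div_eq_mul_inv, one_le_div h5] at h6

theorem S_SAQ_den2 (x : ℚ) (t : ℕ) (h : (q : ℝ) ^ t ≤ ‖(x : ℚ_[q])‖) : q ^ t ∣ x.den := by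
  have h1 := congrArg norm (S_SAQ_ratcast q x)
  rw [norm_mul] at h1
  have h2 := Padic.norm_int_le_one (p := q) x.num
  have hq0 : (0 : ℝ) < q := by exact_mod_cast hq.out.pos
  have h5 : (0 : ℝ) < (q : ℝ) ^ t := by positivity
  have h3 : ‖(((x.den : ℤ)) : ℚ_[q])‖ ≤ (q : ℝ) ^ (-(t : ℤ)) := by
    rw [_root_.zpow_neg, zpow_natCast]
    rw [← h1] at h2
    have h6 : (q : ℝ) ^ t * ‖(((x.den : ℤ)) : ℚ_[q])‖ ≤ 1 :=
      (mul_le_mul_of_nonneg_right h (norm_nonneg _)).trans h2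
    rw [← one_div, le_div_iff₀ h5]
    linarith
  rw [Padic.norm_int_le_pow_iff_dvd] at h3
  exact_mod_cast h3

/-- determinants of matrices with `q`-integral entries -/
theorem S_SAQ_detint {ι : Type} [Fintype ι] [DecidableEq ι] (M : Matrix ι ι ℚ)
    (h : ∀ i j, ‖((M i j : ℚ) : ℚ_[q])‖ ≤ 1) : ‖((M.det : ℚ) : ℚ_[q])‖ ≤ 1 := by
  let S : Subring ℚ := (PadicInt.subring q).comap (algebraMap ℚ ℚ_[q])
  have hS : ∀ x : ℚ, x ∈ S ↔ ‖(x : ℚ_[q])‖ ≤ 1 := fun x => Iff.rfl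
  rw [← hS, Matrix.det_apply]
  refine S.sum_mem fun σ _ => ?_
  rw [Units.smul_def]
  exact S.zsmul_mem (S.prod_mem fun i _ => (hS _).mpr (h _ _)) _

end den

/-! ## The core -/

section core

theorem S_SAQ_third {n : ℕ} (hn : 3 ≤ n) (p i : Fin n) : ∃ l : Fin n, l ≠ p ∧ l ≠ i := by
  have h1 : ({p, i} : Finset (Fin n)).card < (Finset.univ : Finset (Fin n)).card := by
    have h2 : ({p, i} : Finset (Fin n)).card ≤ 2 := Finset.card_le_two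
    rw [Finset.card_univ, Fintype.card_fin]
    omega
  obtain ⟨l, _, hl⟩ := Finset.exists_mem_notMem_of_card_lt_card h1
  simp only [Finset.mem_insert, Finset.mem_singleton, not_or] at hl
  exact ⟨l, hl.1, hl.2⟩

theorem S_SAQ_move {n : ℕ} (hn : 3 ≤ n) (G : Subgroup (SpecialLinearGroup (Fin n) ℚ)) (k : ℕ)
    (hG : ∀ i j : Fin n, i ≠ j → S_SAQ_E i j (k : ℚ) ∈ G) {p c : Fin n} (hpc : p ≠ c) {α : ℚ}
    (hα : S_SAQ_E p c α ∈ G) {i j : Fin n} (hij : i ≠ j) : S_SAQ_E i j ((k : ℚ) ^ 3 * α) ∈ G := by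
  have m0 : ∀ {p c : Fin n} (_ : p ≠ c) {α : ℚ}, S_SAQ_E p c α ∈ G →
      S_SAQ_E p c ((k : ℚ) * α) ∈ G := by
    intro p c h α hα
    have h1 := (S_SAQ_I G p c h).nsmul_mem hα k
    rwa [nsmul_eq_mul, S_SAQ_memI] at h1
  have m1 : ∀ {p c : Fin n} (_ : p ≠ c) {α : ℚ}, S_SAQ_E p c α ∈ G → ∀ i, i ≠ c →
      S_SAQ_E i c ((k : ℚ) * α) ∈ G := by
    intro p c h α hα i hi
    by_cases hip : i = p
    · rw [hip]
      exact m0 h hα
    · exact S_SAQ_Ecomm hip h hi (hG _ _ hip) hα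
  have m2 : ∀ {p c : Fin n} (_ : p ≠ c) {α : ℚ}, S_SAQ_E p c α ∈ G → ∀ j, p ≠ j →
      S_SAQ_E p j ((k : ℚ) * α) ∈ G := by
    intro p c h α hα j hj
    by_cases hjc : c = j
    · rw [← hjc]
      exact m0 h hα
    · rw [mul_comm]
      exact S_SAQ_Ecomm h hjc hj hα (hG _ _ hjc)
  obtain ⟨l, hlp, hli⟩ := S_SAQ_third hn p i
  have h1 := m2 hpc hα l hlp.symm
  have h2 := m1 hlp.symm h1 i hli.symm
  have h3 := m2 hli.symm h2 j hij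
  have e : (k : ℚ) ^ 3 * α = k * (k * (k * α)) := by ring
  rw [e]
  exact h3

theorem S_SAQ_bez {n : ℕ} (G : Subgroup (SpecialLinearGroup (Fin n) ℚ)) (k : ℕ) (q : ℕ)
    (hq : q.Prime) {p c : Fin n} (hpc : p ≠ c) (hk : S_SAQ_E p c (k : ℚ) ∈ G) {β : ℚ}
    (hβ : S_SAQ_E p c β ∈ G) (t : ℕ) (ht : 1 ≤ t) (hd : q ^ t ∣ β.den) :
    S_SAQ_E p c ((k : ℚ) / (q : ℚ) ^ t) ∈ G := by
  obtain ⟨D, hD⟩ := hd
  have hq0 : (q : ℚ) ≠ 0 := by exact_mod_cast hq.ne_zero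
  have hcop : IsCoprime β.num ((q : ℤ) ^ t) := by
    apply IsCoprime.pow_right
    rw [Int.isCoprime_iff_gcd_eq_one, Int.gcd_comm]
    have h1 : Nat.Coprime q β.num.natAbs := by
      have h2 : Nat.Coprime β.den β.num.natAbs := β.reduced.symm
      exact Nat.Coprime.coprime_dvd_left ((dvd_pow_self q (by omega)).trans ⟨D, hD⟩) h2
    simpa [Int.gcd] using h1
  obtain ⟨u, v, huv⟩ := hcop
  have h1 := (S_SAQ_I G p c hpc).nsmul_mem hβ D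
  have h2 := (S_SAQ_I G p c hpc).zsmul_mem h1 (k * u)
  have h3 := (S_SAQ_I G p c hpc).zsmul_mem hk v
  have h4 := (S_SAQ_I G p c hpc).add_mem h2 h3
  rw [S_SAQ_memI] at h4
  have h5 : β * (β.den : ℚ) = β.num := Rat.mul_den_eq_num β
  rw [hD] at h5
  push_cast at h5
  have h6 : (u : ℚ) * (β.num : ℚ) + v * (q : ℚ) ^ t = 1 := by exact_mod_cast huv
  have e : (k : ℚ) / (q : ℚ) ^ t = ((k : ℤ) * u) • (D • β) + v • (k : ℚ) := by
    rw [zsmul_eq_mul, nsmul_eq_mul, zsmul_eq_mul, div_eq_iff (pow_ne_zero _ hq0)]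
    push_cast
    rw [← h5] at h6
    calc (k : ℚ) = k * (u * (β * ((q : ℚ) ^ t * D)) + v * (q : ℚ) ^ t) := by rw [h6, mul_one]
      _ = _ := by ring
  rw [e]
  exact h4

theorem S_SAQ_rel (x y : ℚ) : ∃ s t : ℤ, IsCoprime s t ∧ (s : ℚ) * x + t * y = 0 := by
  by_cases hy : y = 0
  · by_cases hx : x = 0
    · exact ⟨1, 0, isCoprime_one_left, by rw [hx, hy]; simp⟩
    · exact ⟨0, 1, isCoprime_one_right, by rw [hy]; simp⟩
  · refine ⟨(x / y).den, -(x / y).num, ?_, ?_⟩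
    · rw [IsCoprime.neg_right_iff, Int.isCoprime_iff_gcd_eq_one, Int.gcd_comm]
      simpa [Int.gcd] using (x / y).reduced
    · have h1 : x / y * ((x / y).den : ℚ) = (x / y).num := Rat.mul_den_eq_num _
      push_cast
      rw [← h1]
      field_simp
      ring

variable (q : ℕ) [hq : Fact q.Prime]

theorem S_SAQ_large {ι : Type} [Fintype ι] [DecidableEq ι] (w ρ : ι → ℚ) (h : ρ ⬝ᵥ w = 0)
    (A B : ℝ) (hA : 0 < A) (hB : 0 < B) (i₁ f₁ : ι) (h1 : A ≤ ‖((w i₁ : ℚ) : ℚ_[q])‖)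
    (h2 : B ≤ ‖((ρ f₁ : ℚ) : ℚ_[q])‖) :
    ∃ c f, c ≠ f ∧ A * B ≤ ‖((w c : ℚ) : ℚ_[q])‖ * ‖((ρ f : ℚ) : ℚ_[q])‖ := by
  obtain ⟨i₀, -, hi₀⟩ := Finset.exists_max_image Finset.univ
    (fun i => ‖((w i : ℚ) : ℚ_[q])‖) ⟨i₁, Finset.mem_univ _⟩
  obtain ⟨f₀, -, hf₀⟩ := Finset.exists_max_image Finset.univ
    (fun i => ‖((ρ i : ℚ) : ℚ_[q])‖) ⟨f₁, Finset.mem_univ _⟩
  have hw : A ≤ ‖((w i₀ : ℚ) : ℚ_[q])‖ := h1.trans (hi₀ i₁ (Finset.mem_univ _))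
  have hr : B ≤ ‖((ρ f₀ : ℚ) : ℚ_[q])‖ := h2.trans (hf₀ f₁ (Finset.mem_univ _))
  have hAB : A * B ≤ ‖((w i₀ : ℚ) : ℚ_[q])‖ * ‖((ρ f₀ : ℚ) : ℚ_[q])‖ :=
    mul_le_mul hw hr hB.le (norm_nonneg _)
  by_cases hif : i₀ = f₀
  · subst hif
    have h3 : ((ρ i₀ * w i₀ : ℚ) : ℚ_[q]) =
        -∑ i ∈ Finset.univ.erase i₀, ((ρ i * w i : ℚ) : ℚ_[q]) := by
      have h4 : ρ i₀ * w i₀ + ∑ i ∈ Finset.univ.erase i₀, ρ i * w i = 0 := by
        rw [Finset.add_sum_erase Finset.univ (fun i => ρ i * w i) (Finset.mem_univ i₀)]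
        exact h
      have h5 : ρ i₀ * w i₀ = -∑ i ∈ Finset.univ.erase i₀, ρ i * w i := by linarith
      rw [h5]
      push_cast
      rfl
    have h6 : ‖((w i₀ : ℚ) : ℚ_[q])‖ * ‖((ρ i₀ : ℚ) : ℚ_[q])‖ =
        ‖∑ i ∈ Finset.univ.erase i₀, ((ρ i * w i : ℚ) : ℚ_[q])‖ := by
      rw [← norm_neg (∑ i ∈ Finset.univ.erase i₀, ((ρ i * w i : ℚ) : ℚ_[q])), ← h3]
      push_cast
      rw [norm_mul, mul_comm]
    have hpos : 0 < A * B := mul_pos hA hB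
    have hne : (Finset.univ.erase i₀).Nonempty := by
      rw [Finset.nonempty_iff_ne_empty]
      intro he
      rw [he, Finset.sum_empty, norm_zero] at h6
      linarith
    obtain ⟨i, hi, hle⟩ := IsUltrametricDist.exists_norm_finsetSum_le_of_nonempty hne
      (fun i => ((ρ i * w i : ℚ) : ℚ_[q]))
    refine ⟨i₀, i, (Finset.ne_of_mem_erase hi).symm, ?_⟩
    push_cast at hle h6
    rw [← h6, norm_mul] at hle
    have h7 := hi₀ i (Finset.mem_univ _)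
    have h8 : ‖((ρ i : ℚ) : ℚ_[q])‖ * ‖((w i : ℚ) : ℚ_[q])‖ ≤
        ‖((ρ i : ℚ) : ℚ_[q])‖ * ‖((w i₀ : ℚ) : ℚ_[q])‖ :=
      mul_le_mul_of_nonneg_left h7 (norm_nonneg _)
    linarith
  · exact ⟨i₀, f₀, hif, hAB⟩

theorem S_SAQ_adj {ι : Type} [Fintype ι] [DecidableEq ι] (g : SpecialLinearGroup ι ℚ) (i b : ι)
    (h : 1 < ‖(((g : Matrix ι ι ℚ) i b : ℚ) : ℚ_[q])‖) :
    ∃ c, c ≠ b ∧ ∃ f, 1 < ‖((((g⁻¹ : SpecialLinearGroup ι ℚ) : Matrix ι ι ℚ) c f : ℚ) : ℚ_[q])‖ := by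
  by_contra hcon
  simp only [not_exists, not_and, not_lt] at hcon
  have h1 : (g : Matrix ι ι ℚ) i b =
      ((((g⁻¹ : SpecialLinearGroup ι ℚ) : Matrix ι ι ℚ).updateRow b (Pi.single i 1)).det) := by
    rw [← Matrix.adjugate_apply, ← Matrix.SpecialLinearGroup.coe_inv, inv_inv]
  rw [h1] at h
  refine absurd h (not_lt.mpr (S_SAQ_detint q _ fun i' j' => ?_))
  by_cases hi : i' = b
  · rw [hi, Matrix.updateRow_self]
    by_cases hj : j' = i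
    · rw [hj, Pi.single_eq_same]
      simp
    · rw [Pi.single_eq_of_ne hj]
      simp
  · rw [Matrix.updateRow_ne hi]
    exact hcon i' hi j'

theorem S_SAQ_get {n : ℕ} (hn : 3 ≤ n) (G : Subgroup (SpecialLinearGroup (Fin n) ℚ)) (k : ℕ)
    (hk : 1 ≤ k) (hG : ∀ i j : Fin n, i ≠ j → S_SAQ_E i j (k : ℚ) ∈ G)
    (g : SpecialLinearGroup (Fin n) ℚ) (hg : g ∈ G) (i₁ b : Fin n) (A : ℝ) (hA : 1 < A)
    (h : A ≤ ‖(((g : Matrix (Fin n) (Fin n) ℚ) i₁ b : ℚ) : ℚ_[q])‖) :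
    ∃ p c : Fin n, p ≠ c ∧ ∃ β : ℚ, S_SAQ_E p c β ∈ G ∧
      ‖((k : ℚ) : ℚ_[q])‖ ^ 4 * A ≤ ‖(β : ℚ_[q])‖ := by
  obtain ⟨c₀, hc₀, f₁, hf₁⟩ := S_SAQ_adj q g i₁ b (lt_of_lt_of_le hA h)
  set K : ℝ := ‖((k : ℚ) : ℚ_[q])‖ with hK
  have hKpos : 0 < K := by
    rw [hK, norm_pos_iff]
    have : (k : ℚ) ≠ 0 := by
      have : k ≠ 0 := by omega
      exact_mod_cast this
    exact_mod_cast this
  -- the rank one element
  set w : Fin n → ℚ := (g : Matrix (Fin n) (Fin n) ℚ) *ᵥ (Pi.single b 1) with hw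
  set ρ : Fin n → ℚ := (Pi.single c₀ (k : ℚ)) ᵥ*
    ((g⁻¹ : SpecialLinearGroup (Fin n) ℚ) : Matrix (Fin n) (Fin n) ℚ) with hρ
  have hbc : (Pi.single c₀ (k : ℚ) : Fin n → ℚ) ⬝ᵥ Pi.single b 1 = 0 := by
    rw [S_SAQ_sd, Pi.single_eq_of_ne hc₀, mul_zero]
  have hz : S_SAQ_tv w ρ ∈ G := by
    rw [hw, hρ, ← S_SAQ_conj hbc g]
    exact G.mul_mem (G.mul_mem hg (hG b c₀ hc₀.symm)) (G.inv_mem hg)
  have hρw : ρ ⬝ᵥ w = 0 := by rw [hw, hρ, S_SAQ_dot, hbc]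
  have hwi : w i₁ = (g : Matrix (Fin n) (Fin n) ℚ) i₁ b := by
    rw [hw, Matrix.mulVec_single_one]
    rfl
  have hρf : ρ f₁ = (k : ℚ) * ((g⁻¹ : SpecialLinearGroup (Fin n) ℚ) : Matrix (Fin n) (Fin n) ℚ) c₀ f₁ := by
    rw [hρ, Matrix.single_vecMul]
    rfl
  have hB : K ≤ ‖((ρ f₁ : ℚ) : ℚ_[q])‖ := by
    rw [hρf]
    push_cast
    rw [norm_mul]
    have : K * 1 ≤ K * ‖((((g⁻¹ : SpecialLinearGroup (Fin n) ℚ) : Matrix (Fin n) (Fin n) ℚ)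
      c₀ f₁ : ℚ) : ℚ_[q])‖ := mul_le_mul_of_nonneg_left hf₁.le hKpos.le
    rw [mul_one] at this
    rw [hK] at this ⊢
    push_cast at this ⊢
    exact this
  obtain ⟨c, f, hcf, hlarge⟩ := S_SAQ_large q w ρ hρw A K (by linarith) hKpos i₁ f₁
    (by rw [hwi]; exact h) hB
  obtain ⟨a, hac, -⟩ := S_SAQ_third hn c c
  obtain ⟨b', hbc', hba⟩ := S_SAQ_third hn c a
  obtain ⟨s, t, hst, hrel⟩ := S_SAQ_rel (ρ a) (ρ b')
  set v : Fin n → ℚ := Pi.single a (s : ℚ) + Pi.single b' (t : ℚ) with hv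
  have hvc : v c = 0 := by
    rw [hv, Pi.add_apply, Pi.single_eq_of_ne hac.symm, Pi.single_eq_of_ne hbc'.symm, add_zero]
  have hva : v a = s := by
    rw [hv, Pi.add_apply, Pi.single_eq_same, Pi.single_eq_of_ne hba.symm, add_zero]
  have hvb : v b' = t := by
    rw [hv, Pi.add_apply, Pi.single_eq_same, Pi.single_eq_of_ne hba, zero_add]
  have hρv : ρ ⬝ᵥ v = 0 := by
    rw [hv, dotProduct_add, dotProduct_single, dotProduct_single]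
    linarith
  -- `T₂`
  have hone : ∀ (a : Fin n) (s : ℤ), a ≠ c →
      S_SAQ_tv (Pi.single a (s : ℚ)) (Pi.single c (k : ℚ)) ∈ G := by
    intro a s hac
    have h1 := (S_SAQ_I G a c hac).zsmul_mem (hG a c hac) s
    rw [S_SAQ_memI, zsmul_eq_mul] at h1
    have h2 : (Pi.single a (s : ℚ) : Fin n → ℚ) = (s : ℚ) • Pi.single a 1 := by
      rw [← Pi.single_smul, smul_eq_mul, mul_one]
    have h3 : (Pi.single c ((s : ℚ) * k) : Fin n → ℚ) = (s : ℚ) • Pi.single c (k : ℚ) := by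
      rw [← Pi.single_smul, smul_eq_mul]
    rw [h2, S_SAQ_smul (by rw [S_SAQ_sd, Pi.single_eq_of_ne hac.symm, mul_zero]), ← h3]
    exact h1
  have hT2 : S_SAQ_tv v (Pi.single c (k : ℚ)) ∈ G := by
    rw [hv, S_SAQ_addl (by rw [S_SAQ_sd, Pi.single_eq_of_ne hac.symm, mul_zero])
      (by rw [S_SAQ_sd, Pi.single_eq_of_ne hbc'.symm, mul_zero])]
    exact G.mul_mem (hone a s hac) (hone b' t hbc')
  have h1 := S_SAQ_comm_mem (by rw [S_SAQ_sd, hvc, mul_zero]) hρw hρv hT2 hz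
  rw [S_SAQ_sd] at h1
  have h2 := S_SAQ_comm_mem (y := Pi.single f 1) (β := Pi.single c (k : ℚ))
    (by rw [smul_dotProduct, hρv, smul_zero])
    (by rw [S_SAQ_sd, Pi.single_eq_of_ne hcf, mul_zero]) (by rw [S_SAQ_sd, hvc, mul_zero]) h1
    (hG f c hcf.symm)
  rw [smul_dotProduct, dotProduct_single, mul_one, smul_eq_mul, ← Pi.single_smul,
    smul_eq_mul] at h2
  set κ : ℚ := (k : ℚ) * w c * ρ f * k with hκ
  have hκn : K ^ 3 * A ≤ ‖(κ : ℚ_[q])‖ := by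
    have e : ‖(κ : ℚ_[q])‖ = K ^ 2 * (‖((w c : ℚ) : ℚ_[q])‖ * ‖((ρ f : ℚ) : ℚ_[q])‖) := by
      rw [hκ, hK]
      push_cast
      rw [norm_mul, norm_mul, norm_mul]
      ring
    rw [e]
    calc K ^ 3 * A = K ^ 2 * (A * K) := by ring
      _ ≤ _ := mul_le_mul_of_nonneg_left hlarge (by positivity)
  have hfin : ∀ a b' : Fin n, a ≠ b' → a ≠ c → b' ≠ c → ‖((v a : ℚ) : ℚ_[q])‖ = 1 →
      ∃ p c : Fin n, p ≠ c ∧ ∃ β : ℚ, S_SAQ_E p c β ∈ G ∧ K ^ 4 * A ≤ ‖(β : ℚ_[q])‖ := by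
    intro a b' hab hac hbc hnorm
    have h3 := S_SAQ_comm_mem (x := Pi.single b' 1) (α := Pi.single a (k : ℚ))
      (y := v) (β := Pi.single c κ) (by rw [S_SAQ_sd, Pi.single_eq_of_ne hab, mul_zero])
      (by rw [S_SAQ_sd, hvc, mul_zero]) (by rw [S_SAQ_sd, Pi.single_eq_of_ne hbc.symm, mul_zero])
      (hG b' a hab.symm) h2
    rw [S_SAQ_sd, ← Pi.single_smul, smul_eq_mul] at h3
    refine ⟨b', c, hbc, (k : ℚ) * v a * κ, h3, ?_⟩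
    push_cast
    rw [norm_mul, norm_mul, hnorm]
    rw [hK] at hκn ⊢
    push_cast at hκn ⊢
    rw [mul_one]
    calc ‖((k : ℕ) : ℚ_[q])‖ ^ 4 * A = ‖((k : ℕ) : ℚ_[q])‖ * (‖((k : ℕ) : ℚ_[q])‖ ^ 3 * A) := by ring
      _ ≤ _ := mul_le_mul_of_nonneg_left hκn (norm_nonneg _)
  by_cases hs : (q : ℤ) ∣ s
  · have ht : ¬ (q : ℤ) ∣ t := by
      intro ht
      have h3 := hst.isUnit_of_dvd' hs ht
      have h4 := Int.isUnit_iff_natAbs_eq.mp h3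
      simp only [Int.natAbs_natCast] at h4
      exact hq.out.one_lt.ne' h4
    refine hfin b' a hba hbc' hac ?_
    rw [hvb]
    push_cast
    have h4 := Padic.norm_int_le_one (p := q) t
    have h5 := (Padic.norm_intCast_lt_one_iff (p := q) (k := t)).not.mpr ht
    exact le_antisymm h4 (not_lt.mp h5)
  · refine hfin a b' hba.symm hac hbc' ?_
    rw [hva]
    push_cast
    have h4 := Padic.norm_int_le_one (p := q) s
    have h5 := (Padic.norm_intCast_lt_one_iff (p := q) (k := s)).not.mpr hs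
    exact le_antisymm h4 (not_lt.mp h5)

theorem S_SAQ_core {n : ℕ} (hn : 3 ≤ n) (G : Subgroup (SpecialLinearGroup (Fin n) ℚ)) (k : ℕ)
    (hk : 1 ≤ k) (hG : ∀ i j : Fin n, i ≠ j → S_SAQ_E i j (k : ℚ) ∈ G)
    (hu : ∀ r : ℕ, ∃ x ∈ G, ∃ i j, q ^ r ∣ ((x : Matrix (Fin n) (Fin n) ℚ) i j).den)
    {i j : Fin n} (hij : i ≠ j) (r : ℕ) :
    S_SAQ_E i j ((k : ℚ) ^ 4 / (q : ℚ) ^ r) ∈ G := by
  have e : (k : ℚ) ^ 4 / (q : ℚ) ^ r = (k : ℚ) ^ 3 * ((k : ℚ) / (q : ℚ) ^ r) := by ring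
  rw [e]
  suffices hs : ∃ p c : Fin n, p ≠ c ∧ S_SAQ_E p c ((k : ℚ) / (q : ℚ) ^ r) ∈ G by
    obtain ⟨p, c, hpc, h⟩ := hs
    exact S_SAQ_move hn G k hG hpc h hij
  rcases Nat.eq_zero_or_pos r with hr | hr
  · refine ⟨i, j, hij, ?_⟩
    rw [hr, pow_zero, div_one]
    exact hG i j hij
  · set K : ℝ := ‖((k : ℚ) : ℚ_[q])‖ with hK
    have hKpos : 0 < K := by
      rw [hK, norm_pos_iff]
      have : (k : ℚ) ≠ 0 := by
        have : k ≠ 0 := by omega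
        exact_mod_cast this
      exact_mod_cast this
    have hq1 : (1 : ℝ) < q := by exact_mod_cast hq.out.one_lt
    obtain ⟨N, hN⟩ := pow_unbounded_of_one_lt ((q : ℝ) ^ r / K ^ 4) hq1
    obtain ⟨g, hg, i₁, b, hd⟩ := hu (N + 1)
    have h1 := S_SAQ_den1 q _ (N + 1) (by omega) hd
    obtain ⟨p, c, hpc, β, hβ, hn2⟩ := S_SAQ_get q hn G k hk hG g hg i₁ b ((q : ℝ) ^ (N + 1))
      (one_lt_pow₀ hq1 (by omega)) h1
    refine ⟨p, c, hpc, S_SAQ_bez G k q hq.out hpc (hG p c hpc) hβ r hr (S_SAQ_den2 q β r ?_)⟩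
    refine le_trans ?_ hn2
    have h2 : (q : ℝ) ^ N ≤ (q : ℝ) ^ (N + 1) := pow_le_pow_right₀ hq1.le (by omega)
    have h3 : (q : ℝ) ^ r / K ^ 4 ≤ (q : ℝ) ^ (N + 1) := hN.le.trans h2
    rw [div_le_iff₀ (by positivity)] at h3
    linarith

end core

/-! ## The statement -/

/-- the homomorphism to `SL(n, ℚ)` -/
noncomputable def S_SAQ_phi (n m : ℕ) : SLI n m →* SpecialLinearGroup (Fin n) ℚ :=
  SpecialLinearGroup.map (algebraMap (ZI m) ℚ)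

theorem S_SAQ_phi_coe (n m : ℕ) (x : SLI n m) :
    ((S_SAQ_phi n m x : SpecialLinearGroup (Fin n) ℚ) : Matrix (Fin n) (Fin n) ℚ) = ratM x := rfl

theorem S_SAQ_phi_inj (n m : ℕ) (x y : SLI n m) (h : ratM x = ratM y) : x = y := by
  apply Subtype.ext
  ext i j
  have h1 := congrFun (congrFun h i) j
  simpa [ratM] using h1

theorem S_SAQ_vec {n : ℕ} (i j : Fin n) (α : ℚ) :
    vecMulVec (Pi.single i 1 : Fin n → ℚ) (Pi.single j α) = Matrix.single i j α := by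
  ext a b
  rw [vecMulVec_apply, Matrix.single_apply]
  by_cases h1 : i = a
  · by_cases h2 : j = b
    · rw [h1, h2]
      simp
    · rw [Pi.single_eq_of_ne (fun h => h2 h.symm)]
      simp [h2]
  · rw [Pi.single_eq_of_ne (fun h => h1 h.symm)]
    simp [h1]

theorem S_SAQ_Ecoe {n : ℕ} {i j : Fin n} (h : i ≠ j) (α : ℚ) :
    ((S_SAQ_E i j α : SpecialLinearGroup (Fin n) ℚ) : Matrix (Fin n) (Fin n) ℚ) =
      1 + Matrix.single i j α := by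
  unfold S_SAQ_E
  rw [S_SAQ_coe (by rw [S_SAQ_sd, Pi.single_eq_of_ne h.symm, mul_zero]), S_SAQ_vec]

theorem S_SAQ_el {n m : ℕ} {i j : Fin n} (h : i ≠ j) :
    S_SAQ_phi n m (incI n m (el i j h 1)) = S_SAQ_E i j 1 := by
  apply Subtype.ext
  rw [S_SAQ_Ecoe h]
  ext a b
  have h1 : ((S_SAQ_phi n m (incI n m (el i j h 1)) : SpecialLinearGroup (Fin n) ℚ) :
      Matrix (Fin n) (Fin n) ℚ) a b = ((((el i j h 1 : SLZ n) : Matrix (Fin n) (Fin n) ℤ) a b : ℤ) : ℚ) := by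
    change (algebraMap (ZI m) ℚ) ((algebraMap ℤ (ZI m)) _) = _
    simp
  change ((S_SAQ_phi n m (incI n m (el i j h 1)) : SpecialLinearGroup (Fin n) ℚ) :
      Matrix (Fin n) (Fin n) ℚ) a b = _
  rw [h1]
  change (((Matrix.transvection i j (1 : ℤ)) a b : ℤ) : ℚ) = _
  rw [Matrix.transvection, Matrix.add_apply, Matrix.add_apply, Matrix.one_apply, Matrix.one_apply,
    Matrix.single_apply, Matrix.single_apply]
  push_cast
  rfl

theorem S_SAQ_Epow {n : ℕ} {i j : Fin n} (h : i ≠ j) (k : ℕ) :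
    (S_SAQ_E i j 1 : SpecialLinearGroup (Fin n) ℚ) ^ k = S_SAQ_E i j (k : ℚ) := by
  induction k with
  | zero => rw [pow_zero, Nat.cast_zero, S_SAQ_E0]
  | succ k ih => rw [pow_succ, ih, ← S_SAQ_Eadd h, Nat.cast_succ]

theorem S_SAQ (_hZI : S_ZI_stmt) : S_SAQ_stmt := by
  intro n hn m _ Δ hΔ q hq _ hu
  have hqf : Fact q.Prime := ⟨hq⟩
  set H := Δ.comap (incI n m) with hH
  have hfi : H.normalCore.FiniteIndex := inferInstance
  set k : ℕ := H.normalCore.index with hk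
  have hk1 : 1 ≤ k := Nat.one_le_iff_ne_zero.mpr hfi.index_ne_zero
  set G : Subgroup (SpecialLinearGroup (Fin n) ℚ) := Δ.map (S_SAQ_phi n m) with hGdef
  have hG : ∀ i j : Fin n, i ≠ j → S_SAQ_E i j (k : ℚ) ∈ G := by
    intro i j hij
    have h1 : (el i j hij 1 : SLZ n) ^ k ∈ H.normalCore := Subgroup.pow_index_mem _ _
    have h2 : (el i j hij 1 : SLZ n) ^ k ∈ H := Subgroup.normalCore_le _ h1
    have h3 : incI n m ((el i j hij 1 : SLZ n) ^ k) ∈ Δ := h2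
    refine ⟨_, h3, ?_⟩
    rw [map_pow, map_pow, S_SAQ_el, S_SAQ_Epow hij]
  have hu' : ∀ r : ℕ, ∃ x ∈ G, ∃ i j, q ^ r ∣ ((x : Matrix (Fin n) (Fin n) ℚ) i j).den := by
    intro r
    obtain ⟨x, hx, i, j, hd⟩ := hu r
    exact ⟨S_SAQ_phi n m x, ⟨x, hx, rfl⟩, i, j, hd⟩
  refine ⟨k ^ 4, Nat.one_le_iff_ne_zero.mpr (pow_ne_zero _ (by omega)), ?_⟩
  intro x i j r hij hx
  obtain ⟨y, hy, hyx⟩ := S_SAQ_core q hn G k hk1 hG hu' hij r
  have h1 : ratM y = ratM x := by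
    rw [← S_SAQ_phi_coe, hyx, S_SAQ_Ecoe hij, hx]
    push_cast
    rfl
  rw [← S_SAQ_phi_inj n m y x h1]
  exact hy

end Pool.Agent.PR
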